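import Pool.Agent.Helper8.UL.Spec2

/-! Swarm UL2 (helper8), parts HB and BUILD. -/

open Set

namespace Pool.Agent.Helper79.UL2

open Pool.UL

theorem hb_aux (a b : ℕ) (H : Set ℕ) (F : Set (ℕ × ℕ)) (T : ℕ → ℕ) (h : Hang a b H F T) :
    a ∉ H ∧ b ∉ H ∧
    (∀ x ∈ F, (x.1 ∈ H ∨ x.1 = a ∨ x.1 = b) ∧ (x.2 ∈ H ∨ x.2 = a ∨ x.2 = b) ∧
      (x.1 ∈ H ∨ x.2 ∈ H) ∧ (x.2, x.1) ∈ F ∧ x.1 ≠ x.2) ∧
    (∀ v, v ∉ H → v ≠ a → v ≠ b → T v = 0) ∧
    ∀ v, ∃ L : List ℕ, L.Nodup ∧ (∀ u ∈ L, (v, u) ∈ F ∧ ((v = a ∨ v = b) → u ∈ H)) ∧
      T v ≤ L.length := by
  induction h with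
  | nil a b hab H F T hH hF hT =>
    refine ⟨hH a, hH b, fun x hx => absurd hx (hF x), fun v _ _ _ => hT v, fun v => ⟨[], by simp, by simp, ?_⟩⟩
    simp [hT v]
  | cons a b w hab haw hwb H₁ H₂ H₃ H F₁ F₂ F₃ F T₁ T₂ T₃ T h₁ h₂ h₃ hb ha hw h12 h13 h23 hH hF hT
      ih₁ ih₂ ih₃ =>
    obtain ⟨a1, w1, f1, t1, l1⟩ := ih₁
    obtain ⟨w2, b2, f2, t2, l2⟩ := ih₂
    obtain ⟨a3, b3, f3, t3, l3⟩ := ih₃
    have aH : a ∉ H := by
      rw [hH]
      rintro (h | h | h | h)
      · exact a1 h
      · exact ha h
      · exact a3 h
      · exact haw h
    have bH : b ∉ H := by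
      rw [hH]
      rintro (h | h | h | h)
      · exact hb h
      · exact b2 h
      · exact b3 h
      · exact hwb h.symm
    have wH : w ∈ H := by rw [hH]; simp
    have T0 : ∀ v, v ∉ H → v ≠ a → v ≠ b → T v = 0 := by
      intro v hv hva hvb
      rw [hH] at hv
      push Not at hv
      obtain ⟨v1, v2, v3, vw⟩ := hv
      rw [hT, t1 v v1 hva vw, t2 v v2 vw hvb, t3 v v3 hva hvb]
      simp [ind3, hva, hvb, vw]
    refine ⟨aH, bH, ?_, T0, ?_⟩
    · intro x hx
      rw [hF] at hx
      rcases hx with hx | hx | hx | hx | hx | hx | hx
      · obtain ⟨q1, q2, q3, q4, q5⟩ := f1 x hx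
        refine ⟨?_, ?_, ?_, ?_, q5⟩
        · rw [hH]; rcases q1 with q | q | q <;> simp [q]
        · rw [hH]; rcases q2 with q | q | q <;> simp [q]
        · rw [hH, hH]; rcases q3 with q | q <;> simp [q]
        · rw [hF]; exact Or.inl q4
      · obtain ⟨q1, q2, q3, q4, q5⟩ := f2 x hx
        refine ⟨?_, ?_, ?_, ?_, q5⟩
        · rw [hH]; rcases q1 with q | q | q <;> simp [q]
        · rw [hH]; rcases q2 with q | q | q <;> simp [q]
        · rw [hH, hH]; rcases q3 with q | q <;> simp [q]
        · rw [hF]; exact Or.inr (Or.inl q4)
      · obtain ⟨q1, q2, q3, q4, q5⟩ := f3 x hx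
        refine ⟨?_, ?_, ?_, ?_, q5⟩
        · rw [hH]; rcases q1 with q | q | q <;> simp [q]
        · rw [hH]; rcases q2 with q | q | q <;> simp [q]
        · rw [hH, hH]; rcases q3 with q | q <;> simp [q]
        · rw [hF]; exact Or.inr (Or.inr (Or.inl q4))
      · subst hx
        refine ⟨by simp, Or.inl wH, Or.inr wH, ?_, haw⟩
        rw [hF]; simp
      · subst hx
        refine ⟨Or.inl wH, by simp, Or.inl wH, ?_, haw.symm⟩
        rw [hF]; simp
      · subst hx
        refine ⟨Or.inl wH, by simp, Or.inl wH, ?_, hwb⟩
        rw [hF]; simp
      · subst hx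
        refine ⟨by simp, Or.inl wH, Or.inr wH, ?_, hwb.symm⟩
        rw [hF]; simp
    · intro v
      obtain ⟨L1, n1, m1, c1⟩ := l1 v
      obtain ⟨L2, n2, m2, c2⟩ := l2 v
      obtain ⟨L3, n3, m3, c3⟩ := l3 v
      by_cases hva : v = a
      · subst hva
        have e2 : T₂ v = 0 := t2 v ha haw hab
        refine ⟨(L1 ++ L3) ++ [w], ?_, ?_, ?_⟩
        · rw [List.nodup_append]
          refine ⟨?_, by simp, ?_⟩
          · rw [List.nodup_append]
            refine ⟨n1, n3, ?_⟩
            intro x hx y hy hxy
            subst hxy
            exact h13 x ((m1 x hx).2 (Or.inl rfl)) ((m3 x hy).2 (Or.inl rfl))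
          · intro x hx y hy hxy
            rw [List.mem_singleton] at hy
            subst hy
            subst hxy
            rcases List.mem_append.1 hx with hx | hx
            · exact w1 ((m1 x hx).2 (Or.inl rfl))
            · exact hw ((m3 x hx).2 (Or.inl rfl))
        · intro u hu
          simp only [List.mem_append, List.mem_singleton] at hu
          rcases hu with (hu | hu) | hu
          · refine ⟨by rw [hF]; exact Or.inl (m1 u hu).1, fun _ => ?_⟩
            rw [hH]; exact Or.inl ((m1 u hu).2 (Or.inl rfl))
          · refine ⟨by rw [hF]; exact Or.inr (Or.inr (Or.inl (m3 u hu).1)), fun _ => ?_⟩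
            rw [hH]; exact Or.inr (Or.inr (Or.inl ((m3 u hu).2 (Or.inl rfl))))
          · subst hu
            refine ⟨by rw [hF]; simp, fun _ => wH⟩
        · rw [hT, e2]
          simp only [List.length_append, List.length_singleton, ind3, true_or, if_true]
          omega
      · by_cases hvb : v = b
        · subst hvb
          have e1 : T₁ v = 0 := t1 v hb hva hwb.symm
          refine ⟨(L2 ++ L3) ++ [w], ?_, ?_, ?_⟩
          · rw [List.nodup_append]
            refine ⟨?_, by simp, ?_⟩
            · rw [List.nodup_append]
              refine ⟨n2, n3, ?_⟩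
              intro x hx y hy hxy
              subst hxy
              exact h23 x ((m2 x hx).2 (Or.inr rfl)) ((m3 x hy).2 (Or.inr rfl))
            · intro x hx y hy hxy
              rw [List.mem_singleton] at hy
              subst hy
              subst hxy
              rcases List.mem_append.1 hx with hx | hx
              · exact w2 ((m2 x hx).2 (Or.inr rfl))
              · exact hw ((m3 x hx).2 (Or.inr rfl))
          · intro u hu
            simp only [List.mem_append, List.mem_singleton] at hu
            rcases hu with (hu | hu) | hu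
            · refine ⟨by rw [hF]; exact Or.inr (Or.inl (m2 u hu).1), fun _ => ?_⟩
              rw [hH]; exact Or.inr (Or.inl ((m2 u hu).2 (Or.inr rfl)))
            · refine ⟨by rw [hF]; exact Or.inr (Or.inr (Or.inl (m3 u hu).1)), fun _ => ?_⟩
              rw [hH]; exact Or.inr (Or.inr (Or.inl ((m3 u hu).2 (Or.inr rfl))))
            · subst hu
              refine ⟨by rw [hF]; simp, fun _ => wH⟩
          · rw [hT, e1]
            simp only [List.length_append, List.length_singleton, ind3, true_or, or_true, if_true]
            omega
        · by_cases hvw : v = w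
          · subst hvw
            have e3 : T₃ v = 0 := t3 v hw hva hvb
            refine ⟨(L1 ++ L2) ++ [a], ?_, ?_, ?_⟩
            · rw [List.nodup_append]
              refine ⟨?_, by simp, ?_⟩
              · rw [List.nodup_append]
                refine ⟨n1, n2, ?_⟩
                intro x hx y hy hxy
                subst hxy
                exact h12 x ((m1 x hx).2 (Or.inr rfl)) ((m2 x hy).2 (Or.inl rfl))
              · intro x hx y hy hxy
                rw [List.mem_singleton] at hy
                subst hy
                subst hxy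
                rcases List.mem_append.1 hx with hx | hx
                · exact a1 ((m1 x hx).2 (Or.inr rfl))
                · exact ha ((m2 x hx).2 (Or.inl rfl))
            · intro u hu
              refine ⟨?_, fun h => absurd h (by tauto)⟩
              simp only [List.mem_append, List.mem_singleton] at hu
              rcases hu with (hu | hu) | hu
              · rw [hF]; exact Or.inl (m1 u hu).1
              · rw [hF]; exact Or.inr (Or.inl (m2 u hu).1)
              · subst hu
                rw [hF]; simp
            · rw [hT, e3]
              simp only [List.length_append, List.length_singleton, ind3, or_true, if_true]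
              omega
          · have e0 : ind3 a b w v = 0 := by simp [ind3, hva, hvb, hvw]
            by_cases h1 : v ∈ H₁
            · have e2 : T₂ v = 0 := t2 v (h12 v h1) hvw hvb
              have e3 : T₃ v = 0 := t3 v (h13 v h1) hva hvb
              refine ⟨L1, n1, fun u hu => ⟨by rw [hF]; exact Or.inl (m1 u hu).1,
                fun h => absurd h (by tauto)⟩, ?_⟩
              rw [hT, e2, e3, e0]; omega
            · have e1 : T₁ v = 0 := t1 v h1 hva hvw
              by_cases h2 : v ∈ H₂
              · have e3 : T₃ v = 0 := t3 v (h23 v h2) hva hvb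
                refine ⟨L2, n2, fun u hu => ⟨by rw [hF]; exact Or.inr (Or.inl (m2 u hu).1),
                  fun h => absurd h (by tauto)⟩, ?_⟩
                rw [hT, e1, e3, e0]; omega
              · have e2 : T₂ v = 0 := t2 v h2 hvw hvb
                refine ⟨L3, n3, fun u hu =>
                  ⟨by rw [hF]; exact Or.inr (Or.inr (Or.inl (m3 u hu).1)),
                  fun h => absurd h (by tauto)⟩, ?_⟩
                rw [hT, e1, e2, e0]; omega

theorem hb : S_HB := by
  intro a b H F T h
  obtain ⟨h1, h2, h3, h4, h5⟩ := hb_aux a b H F T h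
  refine ⟨h1, h2, h3, h4, fun v => ?_⟩
  obtain ⟨L, n, m, c⟩ := h5 v
  exact ⟨L, n, fun u hu => (m u hu).1, c⟩

theorem build (hI : S_INS) : S_BUILD := by
  intro n E hE hT
  obtain ⟨h2n, h01, hst⟩ := hT
  have key : ∀ m, 2 ≤ m → m ≤ n → ∃ (F : Set (ℕ × ℕ)) (T : ℕ → ℕ),
      Hang 0 1 {v | 2 ≤ v ∧ v < m} F T ∧
      ∀ i j, i < m → j < m → ((E i j ∨ E j i) ↔
        ((i, j) ∈ F ∨ (i = 0 ∧ j = 1) ∨ (i = 1 ∧ j = 0))) := by
    intro m hm
    induction m, hm using Nat.le_induction with
    | base =>
      intro _
      refine ⟨∅, fun _ => 0, Hang.nil 0 1 (by norm_num) _ _ _ ?_ (by simp) (by simp), ?_⟩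
      · intro v hv
        have : 2 ≤ v ∧ v < 2 := hv
        omega
      · intro i j hi hj
        have hne : ∀ k, ¬ E k k := fun k h => (hE k k h).2.2 rfl
        interval_cases i <;> interval_cases j
        · simp [hne]
        · simpa using h01
        · simpa using h01.symm
        · simp [hne]
    | succ m hm ih =>
      intro hmn
      obtain ⟨F, T, hH, hF⟩ := ih (by omega)
      obtain ⟨j, hj, k, hk, hjk, hadj, hl⟩ := hst m (by omega) hm
      have hin : (j, k) ∈ F ∨ (j = 0 ∧ k = 1) ∨ (j = 1 ∧ k = 0) := (hF j k hj hk).1 hadj
      have hzH : m ∉ {v | 2 ≤ v ∧ v < m} := by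
        intro h
        have : 2 ≤ m ∧ m < m := h
        omega
      obtain ⟨T', hT'⟩ := hI 0 1 _ F T hH j k m hin hzH (by omega) (by omega)
      have hFb : ∀ x ∈ F, x.1 < m ∧ x.2 < m := by
        intro x hx
        obtain ⟨_, _, h3, _, _⟩ := hb_aux 0 1 _ F T hH
        obtain ⟨q1, q2, _⟩ := h3 x hx
        constructor
        · rcases q1 with q | q | q
          · exact q.2
          · omega
          · omega
        · rcases q2 with q | q | q
          · exact q.2
          · omega
          · omega
      have hset : {v | v ∈ {v | 2 ≤ v ∧ v < m} ∨ v = m} = {v | 2 ≤ v ∧ v < m + 1} := by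
        ext v
        simp only [Set.mem_ofPred_eq]
        omega
      rw [hset] at hT'
      refine ⟨_, T', hT', ?_⟩
      intro i l hi hl'
      simp only [Set.mem_ofPred_eq, Prod.mk.injEq]
      have hne : ¬ E m m := fun h => (hE m m h).2.2 rfl
      have hFm1 : (i, m) ∉ F := fun h => absurd (hFb _ h).2 (by simp)
      have hFm2 : (m, l) ∉ F := fun h => absurd (hFb _ h).1 (by simp)
      by_cases him : i = m
      · subst him
        by_cases hlm : l = i
        · subst hlm
          constructor
          · rintro (h | h) <;> exact absurd h hne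
          · rintro ((h | h | h | h | h) | h | h)
            · exact absurd h hFm2
            all_goals omega
        · have hli : l < i := by omega
          have := hl l hli
          constructor
          · intro h
            rcases this.1 h.symm with h | h
            · left; right; right; left; exact ⟨rfl, h⟩
            · left; right; right; right; right; exact ⟨rfl, h⟩
          · rintro ((h | h | h | h | h) | h | h)
            · exact absurd h hFm2
            · omega
            · exact (this.2 (Or.inl h.2)).symm
            · omega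
            · exact (this.2 (Or.inr h.2)).symm
            · omega
            · omega
      · have hi' : i < m := by omega
        by_cases hlm : l = m
        · subst hlm
          have := hl i hi'
          constructor
          · intro h
            rcases this.1 h with h | h
            · left; right; left; exact ⟨h, rfl⟩
            · left; right; right; right; left; exact ⟨h, rfl⟩
          · rintro ((h | h | h | h | h) | h | h)
            · exact absurd h hFm1
            · exact this.2 (Or.inl h.1)
            · omega
            · exact this.2 (Or.inr h.1)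
            · omega
            · omega
            · omega
        · have hl'' : l < m := by omega
          rw [hF i l hi' hl'']
          constructor
          · rintro (h | h | h)
            · left; left; exact h
            · right; left; exact h
            · right; right; exact h
          · rintro ((h | h | h | h | h) | h | h)
            · left; exact h
            · omega
            · omega
            · omega
            · omega
            · right; left; exact h
            · right; right; exact h
  obtain ⟨F, T, hH, hF⟩ := key n h2n le_rfl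
  refine ⟨F, T, hH, ?_⟩
  intro i j
  have hFb : ∀ x ∈ F, x.1 < n ∧ x.2 < n := by
    intro x hx
    obtain ⟨_, _, h3, _, _⟩ := hb_aux 0 1 _ F T hH
    obtain ⟨q1, q2, _⟩ := h3 x hx
    constructor
    · rcases q1 with q | q | q
      · exact q.2
      · omega
      · omega
    · rcases q2 with q | q | q
      · exact q.2
      · omega
      · omega
  by_cases hij : i < n ∧ j < n
  · exact hF i j hij.1 hij.2
  · constructor
    · rintro (h | h)
      · exact absurd ⟨(hE _ _ h).1, (hE _ _ h).2.1⟩ hij
      · exact absurd ⟨(hE _ _ h).2.1, (hE _ _ h).1⟩ hij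
    · rintro (h | h | h)
      · exact absurd (hFb _ h) hij
      · omega
      · omega

end Pool.Agent.Helper79.UL2
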